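import Pool.Agent.X195.KC4

/-!
# MP_97d10c_gt (Q1 and Q2): all maximal chains `c`-complete does not imply `H`-closed
-/

set_option autoImplicit false

open Filter Topology

namespace Pool.Agent.Results.MP_97d10c_gt.MaxChainsCompleteNotHClosed

open Pool.Agent.X195.KC

/-- `↓A` -/
def Down {X : Type} [SemilatticeInf X] (A : Set X) : Set X := {x | ∃ a ∈ A, x ≤ a}

/-- `↑A` -/
def Up {X : Type} [SemilatticeInf X] (A : Set X) : Set X := {x | ∃ a ∈ A, a ≤ x}

/-- `c`-completeness. The semilattice operation is `x ⊓ y` and `x ≤ y` means `x ⊓ y = x`. -/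
def CComplete (X : Type) [SemilatticeInf X] [TopologicalSpace X] : Prop :=
  ∀ F : Set X, IsClosed F → Up F = F → ∀ C : Set X, C ⊆ F → C.Nonempty → IsChain (· ≤ ·) C →
    (∃ i, IsGLB C i ∧ i ∈ F) ∧ ∃ s, IsLUB C s ∧ s ∈ closure (Down C)

/-- `s`-completeness. -/
def SComplete (X : Type) [SemilatticeInf X] [TopologicalSpace X] : Prop :=
  (∀ S : Set X, S.Nonempty → (∀ x ∈ S, ∀ y ∈ S, x ⊓ y ∈ S) →
    ∃ i, IsGLB S i ∧ i ∈ closure (Up S)) ∧
  (∀ C : Set X, C.Nonempty → IsChain (· ≤ ·) C → ∃ s, IsLUB C s ∧ s ∈ closure (Down C))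

/-- A chain `L`, with the restricted operation and order, is a semilattice. -/
abbrev chainSemilattice {X : Type} [SemilatticeInf X] {L : Set X} (hL : IsChain (· ≤ ·) L) :
    SemilatticeInf L :=
  Subtype.semilatticeInf (P := fun x => x ∈ L) fun x y hx hy => by
    rcases hL.total hx hy with h | h
    · rwa [inf_eq_left.2 h]
    · rwa [inf_eq_right.2 h]

/-- `X` is `H`-closed: every homomorphism into a Hausdorff topological semigroup which is a
topological embedding has closed image. -/
def HClosed (X : Type) [SemilatticeInf X] [TopologicalSpace X] : Prop :=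
  ∀ (Y : Type) [Semigroup Y] [TopologicalSpace Y] [ContinuousMul Y] [T2Space Y] (h : X → Y),
    IsEmbedding h → (∀ x y, h (x ⊓ y) = h x * h y) → IsClosed (Set.range h)

/-- `X` is absolutely `H`-closed: every continuous homomorphism into a Hausdorff topological
semigroup has closed image. -/
def AbsolutelyHClosed (X : Type) [SemilatticeInf X] [TopologicalSpace X] : Prop :=
  ∀ (Y : Type) [Semigroup Y] [TopologicalSpace Y] [ContinuousMul Y] [T2Space Y] (h : X → Y),
    Continuous h → (∀ x y, h (x ⊓ y) = h x * h y) → IsClosed (Set.range h)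

/-- There is a Hausdorff topological semilattice `X` in which every maximal chain `L` is
`c`-complete and `s`-complete (as a topological semilattice in its own right), but which is not
`H`-closed, hence not absolutely `H`-closed. -/
theorem result : ∃ (X : Type) (_ : SemilatticeInf X) (_ : TopologicalSpace X),
    ContinuousInf X ∧ T2Space X ∧
    (∀ (L : Set X) (hL : IsMaxChain (· ≤ ·) L),
      @CComplete L (chainSemilattice hL.1) inferInstance ∧
      @SComplete L (chainSemilattice hL.1) inferInstance) ∧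
    ¬ HClosed X ∧ ¬ AbsolutelyHClosed X := by
  -- the Hausdorff topological semigroup `Y`
  let sg : Semigroup Y := { mul := fun x y => x ⊓ y, mul_assoc := fun x y z => inf_assoc x y z }
  have hcm : @ContinuousMul Y N.top sg.toMul :=
    @ContinuousMul.mk Y N.top sg.toMul (N.continuous₂ (fun x y => x ⊓ y) mulN)
  have hrange : Set.range (Subtype.val : Pool.Agent.X195.KC.X → Y) = {x | x ≠ yy} :=
    Subtype.range_val
  let _ : TopologicalSpace Pool.Agent.X195.KC.X := tX
  have hH : ¬ HClosed Pool.Agent.X195.KC.X := by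
    intro h
    let _ : TopologicalSpace Y := N.top
    have := @h Y sg N.top hcm t2N Subtype.val IsEmbedding.subtypeVal (fun _ _ => rfl)
    rw [hrange] at this
    exact not_closed this
  have hinf : ∀ (L : Set Pool.Agent.X195.KC.X) (hL : IsMaxChain (· ≤ ·) L) (S : Set L),
      S.Nonempty → ∃ i : L, @IsGLB L (chainSemilattice hL.1).toLE S i ∧ i ∈ closure S := by
    intro L hL S hne
    obtain ⟨i, hi, hglb, hcl⟩ := inf_max L hL (Subtype.val '' S)
      (by rintro _ ⟨x, -, rfl⟩; exact x.2) (hne.image _)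
    refine ⟨⟨i, hi⟩, ⟨?_, ?_⟩, ?_⟩
    · intro x hx
      exact hglb.1 ⟨x, hx, rfl⟩
    · intro y hy
      refine hglb.2 ?_
      rintro _ ⟨x, hx, rfl⟩
      exact hy hx
    · rw [closure_subtype]
      exact hcl
  have hsup : ∀ (L : Set Pool.Agent.X195.KC.X) (hL : IsMaxChain (· ≤ ·) L) (S : Set L),
      S.Nonempty → ∃ i : L, @IsLUB L (chainSemilattice hL.1).toLE S i ∧
        i ∈ closure (@Down L (chainSemilattice hL.1) S) := by
    intro L hL S hne
    obtain ⟨i, hi, hlub, hcl⟩ := sup_max L hL (Subtype.val '' S)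
      (by rintro _ ⟨x, -, rfl⟩; exact x.2) (hne.image _)
    refine ⟨⟨i, hi⟩, ⟨?_, ?_⟩, ?_⟩
    · intro x hx
      exact hlub.1 ⟨x, hx, rfl⟩
    · intro y hy
      refine hlub.2 ?_
      rintro _ ⟨x, hx, rfl⟩
      exact hy hx
    · rw [closure_subtype]
      refine closure_mono ?_ hcl
      rintro y ⟨hyL, _, ⟨x, hx, rfl⟩, hxy⟩
      exact ⟨⟨y, hyL⟩, ⟨x, hx, hxy⟩, rfl⟩
  refine ⟨Pool.Agent.X195.KC.X, inferInstance, tX, continuousInf_X, t2_X, ?_, hH, ?_⟩
  · intro L hL
    refine ⟨?_, ?_, ?_⟩
    · intro F hF _ C hCF hne _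
      obtain ⟨i, hi, hi2⟩ := hinf L hL C hne
      exact ⟨⟨i, hi, closure_minimal hCF hF hi2⟩, hsup L hL C hne⟩
    · intro S hne _
      obtain ⟨i, hi, hi2⟩ := hinf L hL S hne
      have hsub : S ⊆ @Up L (chainSemilattice hL.1) S := fun x hx => ⟨x, hx, le_rfl⟩
      exact ⟨i, hi, closure_mono hsub hi2⟩
    · intro C hne _
      exact hsup L hL C hne
  · intro h
    refine hH ?_
    intro Y _ _ _ _ h' he hm
    exact h Y h' he.continuous hm

end Pool.Agent.Results.MP_97d10c_gt.MaxChainsCompleteNotHClosed
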